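import Pool.Agent.QDA.StmtsZ
import Pool.Agent.Helper54_Ballistic.Dyson

/-!
# QDA (MP_1906c1_mp), second form of the final statement

The density of states is replaced by the Green function itself: the event contains
`|G(E + i / T; 0, 0) - G_0(E + i / T; 0, 0)| ≤ ε`, `G_0` the free Green function (`BadM`, `BadZM`). By the
conservation of the mass this gives the statement on the time evolution `ψ(t) = e^{-itH} δ_0` (`evol V`,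
`isEvolution_evol`, `evol_unique`, `Helper54_Ballistic/Dyson.lean`).
-/

set_option autoImplicit false

open MeasureTheory ProbabilityTheory Function Filter

open scoped BigOperators NNReal ENNReal Matrix InnerProductSpace Topology

noncomputable section

namespace Pool.Agent.QDA

open Pool.Agent.Anderson hiding box mem_box card_box
open Pool.Agent.Loc Pool.Agent.Mob Pool.Agent.Helper54.Bal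
  Pool.Agent.Helper96.EXP Pool.Agent.BED
open Pool.Agent.LE.MN Pool.Agent.LE.CL Pool.Agent.LE.IR Pool.Agent.LE.QD
open Pool.Agent.ANR (Net Gr)
open Pool.Agent.LTG (Bd sT tT bon Box Fm qd)
open Pool.Agent.AND2B (net kap Hr)
open Pool.Agent.ANP (Cfg)
open Pool.Agent.AHH (Al ww Ef)

/-- torus: the site `x` is bad: `G_xx` is not within `ε` of `m`, or more than `ε` of the mass of
`y ↦ η |G_xy|²` is at a distance less than `r`, or at least `R`, from `x` -/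
def BadM {d M : ℕ} [NeZero M] (U : Tor d M → ℝ) (E η : ℝ) (m : ℂ) (ε : ℝ) (r R : ℕ)
    (x : Tor d M) : Prop :=
  ε < ‖Gt U E η x x - m‖ ∨
  ε < η * ∑ y, (if ANP.H61.sd x y < r then ‖Gt U E η x y‖ ^ 2 else 0) ∨
  ε < η * ∑ y, (if R ≤ ANP.H61.sd x y then ‖Gt U E η x y‖ ^ 2 else 0)

/-- the same at the site `0` of the lattice -/
def BadZM {d : ℕ} (V : Site d → ℝ) (E η : ℝ) (m : ℂ) (ε : ℝ) (r R : ℕ) : Prop :=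
  ε < ‖G V (zz η E) (del 0) 0 - m‖ ∨
  ε < η * ∑' x : Site d, (if sd 0 x < r then ‖G V (zz η E) (del 0) x‖ ^ 2 else 0) ∨
  ε < η * ∑' x : Site d, (if R ≤ sd 0 x then ‖G V (zz η E) (del 0) x‖ ^ 2 else 0)

/-- the free Green function at the origin -/
def g0 (d : ℕ) (z : ℂ) : ℂ := G (0 : Site d → ℝ) z (del 0) 0

open Classical in
/-- EDM: EDQ with `BadM`. Proof: as `H72.edq`; on the alive sites `‖net_xx - m₀‖ ≤ 2 δ`,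
`‖Gr H κN x x - Gr H₀ k x x‖ ≤ ε' √(Im Im)` (the complex form of `ngn_im`), and the sum of
`‖Gr H κN x x - Gr H η x x‖` is at most `∑_(b dead) Im G_bb` (`ACS.H72.tri`); Markov. -/
def EdmStmt : Prop :=
  ∀ (d : ℕ) (c₀ C₀ ε : ℝ), 3 ≤ d → 0 < c₀ → c₀ ≤ 1 → 1 ≤ C₀ → 0 < ε →
  ∃ K δ : ℝ, 1 ≤ K ∧ 0 < δ ∧
  ∀ (μ j R : ℕ) (T : Cfg (Tor d (2 ^ μ))) (E e₀ f D₀ D₁ : ℝ) (m₀ : ℂ) (U : Tor d (2 ^ μ) → ℝ),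
    0 < e₀ → 0 < f → e₀ ≤ δ * f → c₀ ≤ m₀.im → ‖m₀‖ ≤ C₀ →
    (∀ x, (T.s x : ℝ) = 0 ∨ (T.s x : ℝ) = f) →
    (∀ x, (T.s x : ℝ) = f → ‖T.mb x - m₀‖ ≤ δ ∧ ‖net E e₀ T x x - T.mb x‖ ≤ δ) →
    (∀ x, (T.s x : ℝ) = f → U x = T.V x - f * m₀.re) →
    (∀ x, (T.s x : ℝ) = 0 → |U x - T.V x| ≤ C₀ * f) →
    (∃ (εl εu : Tor d (2 ^ μ) → ℝ) (bl bu : Bd d (2 ^ μ) → ℝ),
      Fm sT tT (Al T) (ww e₀ T) εl εu bl bu (qd (Ef E e₀ T)) ∧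
      (∀ x ∈ Al T, 0 ≤ εl x ∧ εl x ≤ δ) ∧ ∀ e, D₀ ≤ bl e ∧ bu e ≤ D₁) →
    0 < D₀ → j + 1 ≤ μ → 1 ≤ R → K * f * 4 ^ j ≤ D₀ → K * 2 ^ j ≤ 2 ^ μ → K * D₁ ≤ f * R ^ 2 →
    2 * ((Finset.univ.filter fun x => (T.s x : ℝ) = 0).card : ℝ) ≤ ((2 : ℝ) ^ μ) ^ d →
    ((Finset.univ.filter fun x => BadM U E (f * m₀.im) m₀ ε (2 ^ j) R x).card : ℝ) ≤
      ((Finset.univ.filter fun x => (T.s x : ℝ) = 0).card : ℝ) + ε * ((2 : ℝ) ^ μ) ^ d +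
        K * ∑ b ∈ Finset.univ.filter fun x => (T.s x : ℝ) = 0, (Gt U E (f * m₀.im) b b).im

open Classical in
/-- TRM: THE TRANSFER with `BadM` (`H34.l2`, `H34.mass`; `|G_00 - rs_00| ≤ η`). -/
def TrmStmt : Prop :=
  ∀ (d : ℕ) (ε : ℝ), 1 ≤ d → 0 < ε → ∃ η₀ : ℝ, 0 < η₀ ∧ η₀ ≤ 1 ∧
    ∀ (M : ℕ) [NeZero M] (σ E η : ℝ) (m : ℂ) (v : ℝ≥0) (r R : ℕ), σ ≠ 0 → (v : ℝ) = σ ^ 2 →
      0 < η → η ≤ η₀ → η ^ (-3 : ℝ) ≤ M → 8 * (R + 1) ≤ M → r ≤ R →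
      PP d (gl σ) {V | BadZM V E η m (3 * ε) r R} ≤
        ∫⁻ U, ENNReal.ofReal (((Finset.univ.filter fun x : Tor d M =>
          BadM U E η m ε r R x).card : ℝ) / (M : ℝ) ^ d) ∂(gau d M v)

/-- PTM: a small relative change of `η`. -/
def PtmStmt : Prop :=
  ∀ C ε : ℝ, 1 ≤ C → 0 < ε → ∃ δ : ℝ, 0 < δ ∧
    ∀ (d : ℕ) (V : Site d → ℝ) (E η η' : ℝ) (m : ℂ) (r R : ℕ), ‖m‖ ≤ C → 0 < η → 0 < η' →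
      |η - η'| ≤ δ * η' → BadZM V E η m (2 * ε) r R → BadZM V E η' m ε r R

/-- GUC: the free Green function is bounded and Hoelder continuous up to the real axis, `d ≥ 3`.
Proof: `g0(z) = ± i ∫_0^∞ e^{izt} J_0(2t)^d dt`, `|J_0(2t)|^d ≤ C (1 + t)^{-3/2}`. -/
def GucStmt : Prop :=
  ∀ d : ℕ, 3 ≤ d → ∃ C : ℝ, 1 ≤ C ∧ ∀ z z' : ℂ, 0 < z.im → 0 < z'.im →
    ‖g0 d z‖ ≤ C ∧ ‖g0 d z - g0 d z'‖ ≤ C * ‖z - z'‖ ^ (1 / 4 : ℝ)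

open Classical in
/-- PHM: PHQ with `BadM`, `K` before `δ`; `m` is the self energy (of one torus), up to `δ` the solution of
`m = g0(z + σ² m)`. -/
def PhmStmt : Prop :=
  ∀ (d : ℕ) (a p ε : ℝ), 3 ≤ d → 0 < a → 0 < p → 0 < ε →
    ∃ K : ℝ, 1 ≤ K ∧ ∀ δ : ℝ, 0 < δ →
    ∃ w₀ P : ℝ, 0 < w₀ ∧ w₀ ≤ 1 ∧ 1 ≤ P ∧
    ∀ (w : ℝ≥0) (E η : ℝ) (r R : ℕ), 0 < w → (w : ℝ) ≤ w₀ → |E| ≤ 2 * d - a → 0 < η →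
      η ≤ (w : ℝ) ^ P →
      K * η * (r : ℝ) ^ 2 ≤ (w : ℝ) ^ (1 / 1000 - 1 : ℝ) → K ≤ w * η * (R : ℝ) ^ 2 →
      (R : ℝ) ≤ 1 / η ^ 2 →
      ∃ (m : ℂ) (μ : ℕ) (η' : ℝ), ‖m‖ ≤ K ∧ 0 < m.im ∧
        ‖m - g0 d (zz η E + ((w : ℝ) : ℂ) * m)‖ ≤ δ ∧
        0 < η' ∧ |η - η'| ≤ δ * η' ∧ η' ^ (-4 : ℝ) ≤ (2 : ℝ) ^ μ ∧
        ∫⁻ U, ENNReal.ofReal (((Finset.univ.filter fun x : Tor d (2 ^ μ) =>
          BadM U E η' m ε r R x).card : ℝ) / ((2 : ℝ) ^ μ) ^ d) ∂(gau d (2 ^ μ) w) ≤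
        ENNReal.ofReal p

/-- QZM: all times `T ≥ |σ|^{-P}`. From PHM, TRM, PTM, GUC. -/
def QzmStmt : Prop :=
  ∀ (d : ℕ) (a ε : ℝ), 3 ≤ d → 0 < a → 0 < ε → ∃ s₀ P : ℝ, 0 < s₀ ∧ s₀ ≤ 1 ∧ 1 ≤ P ∧
    ∀ (σ E T : ℝ), σ ≠ 0 → |σ| ≤ s₀ → |E| ≤ 2 * d - a → |σ| ^ (-P) ≤ T →
      PP d (gl σ) {V | BadZM V E (1 / T) (g0 d (zz (1 / T) E)) ε
        ⌊|σ| ^ (1 / 500 - 1 : ℝ) * Real.sqrt T⌋₊
        ⌊|σ| ^ (-(1 / 500) - 1 : ℝ) * Real.sqrt T⌋₊} ≤ ENNReal.ofReal ε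

/-- QLM: the lower range, from the landed rows of DelocalizedRegime (local law, moments), GUC. -/
def QlmStmt : Prop :=
  ∀ (d : ℕ) (a ε : ℝ), 3 ≤ d → 0 < a → 0 < ε → ∃ s₀ θ : ℝ, 0 < s₀ ∧ s₀ ≤ 1 ∧ 0 < θ ∧
    ∀ (σ E T : ℝ), σ ≠ 0 → |σ| ≤ s₀ → |E| ≤ 2 * d - a → |σ| ^ (-3 : ℝ) ≤ T →
      T ≤ Real.exp (|σ| ^ (-θ)) →
      PP d (gl σ) {V | BadZM V E (1 / T) (g0 d (zz (1 / T) E)) ε
        ⌊|σ| ^ (1 / 500 - 1 : ℝ) * Real.sqrt T⌋₊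
        ⌊|σ| ^ (-(1 / 500) - 1 : ℝ) * Real.sqrt T⌋₊} ≤ ENNReal.ofReal ε

/-- QAM: ALL TIMES `T ≥ |σ|^{-3}`, resolved in energy. From QZM, QLM. -/
def QamStmt : Prop :=
  ∀ (d : ℕ) (a ε : ℝ), 3 ≤ d → 0 < a → 0 < ε → ∃ s₀ : ℝ, 0 < s₀ ∧ s₀ ≤ 1 ∧
    ∀ (σ E T : ℝ), σ ≠ 0 → |σ| ≤ s₀ → |E| ≤ 2 * d - a → |σ| ^ (-3 : ℝ) ≤ T →
      PP d (gl σ) {V | BadZM V E (1 / T) (g0 d (zz (1 / T) E)) ε
        ⌊|σ| ^ (1 / 500 - 1 : ℝ) * Real.sqrt T⌋₊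
        ⌊|σ| ^ (-(1 / 500) - 1 : ℝ) * Real.sqrt T⌋₊} ≤ ENNReal.ofReal ε

/-- TAV: ALL TIMES `T ≥ |σ|^{-3}`, the time evolution. Proof, `η = 1 / T`, `B = [-(2 d - a), 2 d - a]`,
`S` the set of the sites which are near or far, `N(E) = η ∑_(x ∈ S) |G(E + i η; 0, x)|² ≤ I(E) =
η ∑_x |G(E + i η; 0, x)|² = Im G(E + i η; 0, 0)`. Plancherel (`planch_coord`): `∫ N dE = 2 π η ∫_0^∞ e^{-2 η t}
∑_(x ∈ S) |ψ(t, x)|² dt`, `∫ I dE = π` (`norm_evol`). For `E ∈ B` let `Q(E)` be the complement of the bad event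
(QAM with `ε'`): there `N ≤ 2 ε'` and `I ≥ Im g0(E + i η) - ε'`. So `∫ N ≤ ∫_(B ∩ Q) N + ∫_(rest) I ≤
4 d ε' + π - ∫_(B ∩ Q) I ≤ 8 d ε' + π - ∫_B Im g0 + C |B \ Q|`, `𝔼 |B \ Q| ≤ 4 d ε'` (Tonelli), and
`π - ∫_B Im g0 = ∫_(outside B) Im g0 ≤ 4 a C + 2 η / a` (GUC near `± 2 d`, `Im g0 ≤ η / dist²` outside). -/
def TavStmt : Prop :=
  ∀ (d : ℕ) (ε : ℝ), 3 ≤ d → 0 < ε → ∃ s₀ : ℝ, 0 < s₀ ∧ s₀ ≤ 1 ∧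
    ∀ (σ T : ℝ), σ ≠ 0 → |σ| ≤ s₀ → |σ| ^ (-3 : ℝ) ≤ T →
      ∫⁻ V, (∫⁻ t in Set.Ioc (0 : ℝ) T, ∑' x : Site d,
        (if (sd 0 x : ℝ) ≤ |σ| ^ (-(99 / 100) : ℝ) * Real.sqrt T ∨
            |σ| ^ (-(101 / 100) : ℝ) * Real.sqrt T ≤ sd 0 x then
          ENNReal.ofReal (‖evol V t x‖ ^ 2) else 0)) ∂(PP d (gl σ)) ≤ ENNReal.ofReal (ε * T)

end Pool.Agent.QDA
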