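import Pool.Agent.ANR.Defs
import Pool.Agent.LTG.Defs
import Pool.Agent.Helper61_ANP.Tor

/-!
# QDA (MP_1906c1_mp): quantum diffusion at all times, the deterministic statements

Paper: `/team-store/AND2D_plan.md`. `ANR.Gr H κ = (H - i κ)⁻¹`.
-/

set_option autoImplicit false

open scoped BigOperators ComplexConjugate

noncomputable section

namespace Pool.Agent.QDA

open Pool.Agent.ANR (Net Gr)
open Pool.Agent.LTG (Tor Bd sT tT bon Box)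

/-- TRI2: the absorption at the sites of `D` is lowered from `η` to `e₀`: the entries off `D` change, in
`ℓ²`, at most by the Green functions at the sites of `D`. -/
def Tri2Stmt : Prop :=
  ∀ (X : Type) [Fintype X] [DecidableEq X] (H : Matrix X X ℝ) (D : Finset X) (η e₀ : ℝ),
    (∀ x y, H x y = H y x) → 0 < e₀ → e₀ < η →
    ∑ x ∈ Dᶜ, ∑ y ∈ Dᶜ, ‖Gr H (fun _ => η) x y - Gr H (fun z => if z ∈ D then e₀ else η) x y‖ ^ 2 ≤
      1 / (η - e₀) * ∑ b ∈ D, (Gr H (fun _ => η) b b).im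

/-- NGN2: two networks with relatively close diagonals. -/
def Ngn2Stmt : Prop :=
  ∀ (X : Type) [Fintype X] [DecidableEq X] (H H' : Matrix X X ℝ) (κ κ' : X → ℝ) (ε : ℝ),
    Net H κ → Net H' κ' → (∀ x y, x ≠ y → H' x y = H x y) →
    (∀ x, |H' x x - H x x| + |κ' x - κ x| ≤ ε * (Real.sqrt (κ' x) * Real.sqrt (κ x))) →
    ∀ y, ∑ x, κ' x * ‖Gr H' κ' x y - Gr H κ x y‖ ^ 2 ≤ ε ^ 2 * (Gr H κ y y).im

/-- UPF: conductances which are bounded above by `B` times the lattice Laplacian are small at large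
distances (tent functions of one coordinate, all centres). -/
def UpfStmt : Prop :=
  ∀ d : ℕ, 1 ≤ d → ∃ C : ℝ, 1 ≤ C ∧ ∀ (M : ℕ) [NeZero M] (c : Matrix (Tor d M) (Tor d M) ℝ) (B : ℝ),
    (∀ x y, 0 ≤ c x y) → 0 ≤ B →
    (∀ h : Tor d M → ℝ, 1 / 2 * ∑ x, ∑ y, c x y * (h x - h y) ^ 2 ≤ B * bon sT tT (fun _ => 1) h) →
    ∀ R : ℕ, 1 ≤ R → ∑ x, ∑ y, (if R ≤ ANP.H61.sd x y then c x y else 0) ≤
      C * B * (M : ℝ) ^ d / (R : ℝ) ^ 2

/-- LOF: conductances whose form is bounded below by the Moreau form with node weights `w / (1 + ε)`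
and bond weights `b`, with row sums at most `(1 + ν) w`, do not concentrate at small distances, `d ≥ 3`
(indicators of boxes, all corners, dyadic means). -/
def LofStmt : Prop :=
  ∀ d : ℕ, 3 ≤ d → ∃ C : ℝ, 1 ≤ C ∧ ∀ (μ j : ℕ) (c : Matrix (Tor d (2 ^ μ)) (Tor d (2 ^ μ)) ℝ)
    (A : Finset (Tor d (2 ^ μ))) (w : Tor d (2 ^ μ) → ℝ) (W W' b ε ν : ℝ), j + 1 ≤ μ →
    (∀ x y, 0 ≤ c x y) → (∀ x y, c x y = c y x) → (∀ x y, x ∉ A → c x y = 0) →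
    0 < W' → (∀ x ∈ A, W' ≤ w x ∧ w x ≤ W) → 0 < b → 0 ≤ ε → ε ≤ 1 / 2 → 0 ≤ ν →
    (∀ x ∈ A, ∑ y, c x y ≤ (1 + ν) * w x) →
    (∀ f : Tor d (2 ^ μ) → ℝ, ∃ h : Tor d (2 ^ μ) → ℝ,
      ∑ x ∈ A, w x / (1 + ε) * (f x - h x) ^ 2 + b * bon sT tT (fun _ => 1) h ≤
        1 / 2 * ∑ x, ∑ y, c x y * (f x - f y) ^ 2) →
    (((2 : ℝ) ^ μ) ^ d ≤ 2 * A.card) →
    ∑ x, ∑ y, (if ANP.H61.sd x y < 2 ^ j then c x y else 0) ≤
      C * ((2 : ℝ) ^ μ) ^ d * W * (ε + ν + W * 4 ^ j / b + W / W' * ((2 : ℝ) ^ j / 2 ^ μ) ^ d)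

end Pool.Agent.QDA
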