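import Pool.Agent.QDA.Stmts
import Pool.Agent.AHH.Defs

/-!
# QDA (MP_1906c1_mp): the deterministic end on the torus

The last configuration of the flow: every clock is `0` (dead) or `f`; the network between the alive
sites satisfies the form bounds; `U = V - f Re m₀` at the running sites, `|U - V| ≤ C₀ f` at the dead sites, is
the true potential (a real shift `u_b` at the dead sites costs `∑_(x,y) η |(G₂ u G)_xy|² ≤
(C₀ f / η)² ∑_(b dead) Im G_bb`). `G = (Δ + U - E - i η)⁻¹`,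
`η = f Im m₀`, is the true resolvent. All but few sites `x` are good: `Im G_xx` is of order one, and
the mass `η |G_xy|²` (total mass `Im G_xx`) is neither in `|x - y| < 2 ^ j` nor in `|x - y| ≥ R`, if
`4 ^ j ≪ D₀ / f` and `R² ≫ D₁ / f`.
-/

set_option autoImplicit false

open scoped BigOperators ComplexConjugate NNReal

noncomputable section

namespace Pool.Agent.QDA

open Pool.Agent.ANR (Net Gr)
open Pool.Agent.LTG (Tor Bd sT tT bon Box Fm qd)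
open Pool.Agent.AND2B (net kap Hr)
open Pool.Agent.ANP (Cfg)
open Pool.Agent.AHH (Al ww Ef)

variable {d M : ℕ} [NeZero M]

/-- the resolvent `(Δ + U - E - i η)⁻¹` -/
def Gt (U : Tor d M → ℝ) (E η : ℝ) : Matrix (Tor d M) (Tor d M) ℂ := Gr (Hr U E) (fun _ => η)

/-- the site `x` is bad: the density is not between `c` and `1 / c`, or more than `ε` of the mass of
`y ↦ η |G_xy|²` is at a distance less than `r`, or at least `R`, from `x` -/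
def Bad (U : Tor d M → ℝ) (E η c ε : ℝ) (r R : ℕ) (x : Tor d M) : Prop :=
  (Gt U E η x x).im < c ∨ 1 / c < (Gt U E η x x).im ∨
  ε < η * ∑ y, (if ANP.H61.sd x y < r then ‖Gt U E η x y‖ ^ 2 else 0) ∨
  ε < η * ∑ y, (if R ≤ ANP.H61.sd x y then ‖Gt U E η x y‖ ^ 2 else 0)

open Classical in
/-- EDQ: THE DETERMINISTIC END -/
def EdqStmt : Prop :=
  ∀ (d : ℕ) (c₀ C₀ ε : ℝ), 3 ≤ d → 0 < c₀ → c₀ ≤ 1 → 1 ≤ C₀ → 0 < ε →
  ∃ K δ : ℝ, 1 ≤ K ∧ 0 < δ ∧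
  ∀ (μ j R : ℕ) (T : Cfg (Tor d (2 ^ μ))) (E e₀ f D₀ D₁ : ℝ) (m₀ : ℂ) (U : Tor d (2 ^ μ) → ℝ),
    0 < e₀ → 0 < f → e₀ ≤ δ * f → c₀ ≤ m₀.im → ‖m₀‖ ≤ C₀ →
    (∀ x, (T.s x : ℝ) = 0 ∨ (T.s x : ℝ) = f) →
    (∀ x, (T.s x : ℝ) = f → ‖T.mb x - m₀‖ ≤ δ ∧ ‖net E e₀ T x x - T.mb x‖ ≤ δ) →
    (∀ x, (T.s x : ℝ) = f → U x = T.V x - f * m₀.re) →
    (∀ x, (T.s x : ℝ) = 0 → |U x - T.V x| ≤ C₀ * f) →
    (∃ (εl εu : Tor d (2 ^ μ) → ℝ) (bl bu : Bd d (2 ^ μ) → ℝ),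
      Fm sT tT (Al T) (ww e₀ T) εl εu bl bu (qd (Ef E e₀ T)) ∧
      (∀ x ∈ Al T, 0 ≤ εl x ∧ εl x ≤ δ) ∧ ∀ e, D₀ ≤ bl e ∧ bu e ≤ D₁) →
    0 < D₀ → j + 1 ≤ μ → 1 ≤ R → K * f * 4 ^ j ≤ D₀ → K * 2 ^ j ≤ 2 ^ μ → K * D₁ ≤ f * R ^ 2 →
    2 * ((Finset.univ.filter fun x => (T.s x : ℝ) = 0).card : ℝ) ≤ ((2 : ℝ) ^ μ) ^ d →
    ((Finset.univ.filter fun x => Bad U E (f * m₀.im) (1 / K) ε (2 ^ j) R x).card : ℝ) ≤
      ((Finset.univ.filter fun x => (T.s x : ℝ) = 0).card : ℝ) + ε * ((2 : ℝ) ^ μ) ^ d +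
        K * ∑ b ∈ Finset.univ.filter fun x => (T.s x : ℝ) = 0, (Gt U E (f * m₀.im) b b).im

end Pool.Agent.QDA
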