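import Pool.Agent.QDA.StmtsE
import Pool.Agent.ANE.Stmts

/-!
# QDA (MP_1906c1_mp): from the tori to the lattice, the final statement
-/

set_option autoImplicit false

open MeasureTheory ProbabilityTheory Function Filter

open scoped BigOperators NNReal ENNReal Matrix InnerProductSpace Topology

noncomputable section

namespace Pool.Agent.QDA

open Pool.Agent.Anderson hiding box mem_box card_box
open Pool.Agent.Loc Pool.Agent.Mob Pool.Agent.Helper54.Bal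
  Pool.Agent.Helper96.EXP Pool.Agent.BED
open Pool.Agent.LE.MN Pool.Agent.LE.CL Pool.Agent.LE.IR Pool.Agent.LE.QD

/-- the lattice: the density at `0` is not between `c` and `1 / c`, or more than `ε` of the mass of
`x ↦ η |G(E + i η; 0, x)|²` is at a distance less than `r`, or at least `R`, from `0` -/
def BadZ {d : ℕ} (V : Site d → ℝ) (E η c ε : ℝ) (r R : ℕ) : Prop :=
  (G V (zz η E) (del 0) 0).im < c ∨ 1 / c < (G V (zz η E) (del 0) 0).im ∨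
  ε < η * ∑' x : Site d, (if sd 0 x < r then ‖G V (zz η E) (del 0) x‖ ^ 2 else 0) ∨
  ε < η * ∑' x : Site d, (if R ≤ sd 0 x then ‖G V (zz η E) (del 0) x‖ ^ 2 else 0)

open Classical in
/-- TRQ: THE TRANSFER: the mean fraction of the bad sites of the torus bounds the probability that the
origin of the lattice is bad. Proof: translation invariance of `gau` and of `Bad`; the law of
`x ↦ V (rep x)`; the cutoff of `ANE.CtzStmt` for `|G - rs|` on the cube of radius `M / 4`, Combes-Thomas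
for the tails; `η` small makes all errors smaller than `c / 2` and `ε`. -/
def TrqStmt : Prop :=
  ∀ (d : ℕ) (c ε : ℝ), 1 ≤ d → 0 < c → c ≤ 1 → 0 < ε → ∃ η₀ : ℝ, 0 < η₀ ∧ η₀ ≤ 1 ∧
    ∀ (M : ℕ) [NeZero M] (σ E η : ℝ) (v : ℝ≥0) (r R : ℕ), σ ≠ 0 → (v : ℝ) = σ ^ 2 → 0 < η →
      η ≤ η₀ → η ^ (-3 : ℝ) ≤ M → 8 * (R + 1) ≤ M → r ≤ R →
      PP d (gl σ) {V | BadZ V E η (c / 2) (2 * ε) r R} ≤
        ∫⁻ U, ENNReal.ofReal (((Finset.univ.filter fun x : Tor d M =>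
          Bad U E η c ε r R x).card : ℝ) / (M : ℝ) ^ d) ∂(gau d M v)

/-- PTZ: a small relative change of `η`. Proof: `u = G(η) δ_0`, `u' = G(η') δ_0`, `u - u' = i (η - η') G(η) u'`, so
`‖u - u'‖ ≤ |η - η'| / η ‖u'‖` and `η' ‖u'‖² = Im G(η')_00`. -/
def PtzStmt : Prop :=
  ∀ (d : ℕ) (c ε : ℝ), 0 < c → c ≤ 1 → 0 < ε → ∃ δ : ℝ, 0 < δ ∧
    ∀ (V : Site d → ℝ) (E η η' : ℝ) (r R : ℕ), 0 < η → 0 < η' → |η - η'| ≤ δ * η' →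
      BadZ V E η (c / 2) (2 * ε) r R → BadZ V E η' c ε r R

/-- STM: the self energy does not depend on the torus nor on the tiny absorption. Proof:
`g_M (ζ) = rs 0 ζ 0 0`, `g_M' = ∑ rs²`, `T |g_M'| ≤ 1/4` on the convex set `Im ζ ≥ b T`, `|Re ζ| ≤ 2 d - a / 2`
(`KhbStmt` at `p = 0`), and `g_M - g_M'` is small by `ANE.CtzStmt` with `V = 0`. -/
def StmStmt : Prop :=
  ∀ (d : ℕ) (a b δ : ℝ), 3 ≤ d → 0 < a → 0 < b → 0 < δ → ∃ T₀ : ℝ, 0 < T₀ ∧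
    ∀ T : ℝ, 0 < T → T ≤ T₀ → ∃ (e₁ : ℝ) (M₁ : ℕ), 0 < e₁ ∧
      ∀ (M M' : ℕ) [NeZero M] [NeZero M'] (E E' η η' : ℝ) (m m' : ℂ), M₁ ≤ M → M₁ ≤ M' →
        |E| ≤ 2 * d - a → |E'| ≤ 2 * d - a → |E - E'| ≤ e₁ →
        0 < η → η ≤ e₁ → 0 < η' → η' ≤ e₁ →
        b ≤ m.im → ‖m‖ ≤ 1 / b → b ≤ m'.im → ‖m'‖ ≤ 1 / b →
        rs (0 : Tor d M → ℝ) (⟨E, η⟩ + (T : ℂ) * m) 0 0 = m →
        rs (0 : Tor d M' → ℝ) (⟨E', η'⟩ + (T : ℂ) * m') 0 0 = m' → ‖m - m'‖ ≤ δ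

open Classical in
/-- PHQ: THE FLOW: on tori, for every small `w` and EVERY small `η` (up to a relative error `δ`) most of
the sites are good: `r² ≪ w^(1/1000 - 1) / η` (`8 es < 1/1000`), `R² ≫ 1 / (w η)`. From `ACX.Prt2Stmt`, the nine fields
(uniform in the last clock, row EVU), the scales with an arbitrary last stage (SCB), EDQ, STM. -/
def PhqStmt : Prop :=
  ∀ (d : ℕ) (a p ε δ : ℝ), 3 ≤ d → 0 < a → 0 < p → 0 < ε → 0 < δ →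
    ∃ w₀ P K : ℝ, 0 < w₀ ∧ w₀ ≤ 1 ∧ 1 ≤ P ∧ 1 ≤ K ∧
    ∀ (w : ℝ≥0) (E η : ℝ) (r R : ℕ), 0 < w → (w : ℝ) ≤ w₀ → |E| ≤ 2 * d - a → 0 < η → η ≤ (w : ℝ) ^ P →
      K * η * (r : ℝ) ^ 2 ≤ (w : ℝ) ^ (1 / 1000 - 1 : ℝ) → K ≤ w * η * (R : ℝ) ^ 2 → (R : ℝ) ≤ 1 / η ^ 2 →
      ∃ (μ : ℕ) (η' : ℝ), 0 < η' ∧ |η - η'| ≤ δ * η' ∧ η' ^ (-4 : ℝ) ≤ (2 : ℝ) ^ μ ∧
        ∫⁻ U, ENNReal.ofReal (((Finset.univ.filter fun x : Tor d (2 ^ μ) =>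
          Bad U E η' (1 / K) ε r R x).card : ℝ) / ((2 : ℝ) ^ μ) ^ d) ∂(gau d (2 ^ μ) w) ≤
        ENNReal.ofReal p

/-- QDZ: QUANTUM DIFFUSION FOR ALL LARGE TIMES. From PHQ, TRQ, PTZ. -/
def QdzStmt : Prop :=
  ∀ (d : ℕ) (a ε : ℝ), 3 ≤ d → 0 < a → 0 < ε → ∃ s₀ P c : ℝ, 0 < s₀ ∧ s₀ ≤ 1 ∧ 1 ≤ P ∧ 0 < c ∧
    ∀ (σ E T : ℝ), σ ≠ 0 → |σ| ≤ s₀ → |E| ≤ 2 * d - a → |σ| ^ (-P) ≤ T →
      PP d (gl σ) {V | BadZ V E (1 / T) c ε ⌊|σ| ^ (1 / 500 - 1 : ℝ) * Real.sqrt T⌋₊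
        ⌊|σ| ^ (-(1 / 500) - 1 : ℝ) * Real.sqrt T⌋₊} ≤ ENNReal.ofReal ε

end Pool.Agent.QDA
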